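import Pool.Agent.Helper21.BN.Spec
import Pool.Agent.Helper91.BN.Lin

namespace BN

open H91 Module

theorem c3_thm (hQ : S_Q) : S_C3 := by
  classical
  intro V E _ _ _ _ d X F hX hFX
  -- maximal set of nonzero, pairwise inequivalent elements
  set 𝒦 : Finset (Finset E) := F.powerset.filter (fun K =>
    (∀ e ∈ K, ∃ z ∈ cyc d X, z e ≠ 0) ∧
    ∀ e ∈ K, ∀ e' ∈ K, (∀ z ∈ cyc d X, z e = z e') → e = e') with h𝒦
  have hne : 𝒦.Nonempty := ⟨∅, by simp [h𝒦]⟩
  obtain ⟨K, hK, hmax⟩ := Finset.exists_max_image 𝒦 Finset.card hne
  have hK' := hK
  rw [h𝒦, Finset.mem_filter, Finset.mem_powerset] at hK'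
  obtain ⟨hKF, hKnz, hKin⟩ := hK'
  refine ⟨K, hKF, ?_, ?_⟩
  · intro e he
    by_contra hcon
    push Not at hcon
    obtain ⟨hc1, hc2⟩ := hcon
    have heK : e ∉ K := by
      intro h
      obtain ⟨z, hz, hzz⟩ := hc2 e h
      exact hzz rfl
    have hins : insert e K ∈ 𝒦 := by
      rw [h𝒦, Finset.mem_filter, Finset.mem_powerset]
      refine ⟨Finset.insert_subset he hKF, ?_, ?_⟩
      · intro x hx
        rcases Finset.mem_insert.1 hx with rfl | hx
        · exact hc1
        · exact hKnz x hx
      · intro x hx y hy hxy
        rcases Finset.mem_insert.1 hx with hx1 | hx1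
        · rcases Finset.mem_insert.1 hy with hy1 | hy1
          · rw [hx1, hy1]
          · obtain ⟨z, hz, hzz⟩ := hc2 y hy1
            rw [hx1] at hxy
            exact absurd (hxy z hz) hzz
        · rcases Finset.mem_insert.1 hy with hy1 | hy1
          · obtain ⟨z, hz, hzz⟩ := hc2 x hx1
            rw [hy1] at hxy
            exact absurd (hxy z hz).symm hzz
          · exact hKin x hx1 y hy1 hxy
    have := hmax _ hins
    rw [Finset.card_insert_of_notMem heK] at this
    omega
  · -- the counting
    have hKX : K ⊆ X := hKF.trans hFX
    obtain ⟨π, hπ⟩ := hQ V E d (X \ K) (fun e he => hX e (Finset.mem_sdiff.1 he).1)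
    set d' : E → V → ZMod 2 := fun e w => ∑ v ∈ Finset.univ.filter (fun v => π v = w), d e v with hd'
    -- class sums of boundaries
    have hbd : ∀ (y : E → ZMod 2) (w : V),
        ∑ v ∈ Finset.univ.filter (fun v => π v = w), bd d y v = ∑ e, y e * d' e w := by
      intro y w
      simp only [bd, hd']
      rw [Finset.sum_comm]
      refine Finset.sum_congr rfl (fun e _ => ?_)
      rw [Finset.mul_sum]
    have hd0 : ∀ e ∈ X, e ∉ K → ∀ w, d' e w = 0 := by
      intro e he heK
      have h1 := (hπ (d e)).1 ⟨Pi.single e 1, ?_, bd_single d e⟩
      · exact h1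
      · intro e' he'
        have hee : e' ≠ e := by
          rintro rfl
          exact he' (Finset.mem_sdiff.2 ⟨he, heK⟩)
        simp [hee]
    set Q : Finset V := Finset.univ.filter (fun w => ∃ e ∈ K, d' e w ≠ 0) with hQdef
    set Nw : V → Finset E := fun w => K.filter (fun e => d' e w ≠ 0) with hNw
    have hN3 : ∀ w ∈ Q, 3 ≤ (Nw w).card := by
      intro w hw
      have hsum : ∀ z ∈ cyc d X, ∑ e ∈ Nw w, z e = 0 := by
        intro z hz
        have h1 := hbd z w
        have h2 : ∑ v ∈ Finset.univ.filter (fun v => π v = w), bd d z v = 0 :=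
          Finset.sum_eq_zero (fun v _ => hz.2 v)
        rw [h2] at h1
        have h3 : ∑ e, z e * d' e w = ∑ e ∈ Nw w, z e := by
          rw [← Finset.sum_subset (Finset.subset_univ (Nw w))]
          · refine Finset.sum_congr rfl (fun e he => ?_)
            rw [z2 _ (Finset.mem_filter.1 he).2, mul_one]
          · intro e _ he
            by_cases heX : e ∈ X
            · by_cases heK : e ∈ K
              · have : d' e w = 0 := by
                  by_contra hcon
                  exact he (Finset.mem_filter.2 ⟨heK, hcon⟩)
                rw [this, mul_zero]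
              · rw [hd0 e heX heK w, mul_zero]
            · rw [hz.1 e heX, zero_mul]
        rw [← h3]; exact h1.symm
      obtain ⟨e0, he0, he0'⟩ := (Finset.mem_filter.1 hw).2
      have he0N : e0 ∈ Nw w := Finset.mem_filter.2 ⟨he0, he0'⟩
      by_contra hcon
      have hc : (Nw w).card = 1 ∨ (Nw w).card = 2 := by
        have := Finset.card_pos.2 ⟨e0, he0N⟩
        omega
      rcases hc with hc | hc
      · obtain ⟨a, ha⟩ := Finset.card_eq_one.1 hc
        have haK : a ∈ K := by
          have : a ∈ Nw w := by rw [ha]; simp
          exact (Finset.mem_filter.1 this).1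
        obtain ⟨z, hz, hzz⟩ := hKnz a haK
        have := hsum z hz
        rw [ha, Finset.sum_singleton] at this
        exact hzz this
      · obtain ⟨a, b, hab, hab'⟩ := Finset.card_eq_two.1 hc
        have haK : a ∈ K := by
          have : a ∈ Nw w := by rw [hab']; simp
          exact (Finset.mem_filter.1 this).1
        have hbK : b ∈ K := by
          have : b ∈ Nw w := by rw [hab']; simp
          exact (Finset.mem_filter.1 this).1
        apply hab
        apply hKin a haK b hbK
        intro z hz
        have := hsum z hz
        rw [hab', Finset.sum_pair hab] at this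
        exact z2add _ _ this
    have hcount : 3 * Q.card ≤ 2 * K.card := by
      have h1 : Q.card * 3 ≤ ∑ w ∈ Q, (Nw w).card := by
        have := Finset.card_nsmul_le_sum Q (fun w => (Nw w).card) 3 hN3
        simpa using this
      have h2 : ∑ w ∈ Q, (Nw w).card = ∑ e ∈ K, (Q.filter (fun w => d' e w ≠ 0)).card := by
        simp only [hNw]
        exact Finset.sum_card_bipartiteAbove_eq_sum_card_bipartiteBelow (fun w e => d' e w ≠ 0)
      have h3 : ∑ e ∈ K, (Q.filter (fun w => d' e w ≠ 0)).card ≤ K.card * 2 := by
        have := Finset.sum_le_card_nsmul K (fun e => (Q.filter (fun w => d' e w ≠ 0)).card) 2 ?_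
        · simpa using this
        · intro e he
          obtain ⟨a, b, hab⟩ := hX e (hKX he)
          have hsub : Q.filter (fun w => d' e w ≠ 0) ⊆ {π a, π b} := by
            intro w hw
            have hw2 := (Finset.mem_filter.1 hw).2
            by_contra hcon
            rw [Finset.mem_insert, Finset.mem_singleton, not_or] at hcon
            apply hw2
            simp only [hd']
            apply Finset.sum_eq_zero
            intro v hv
            have hv2 := (Finset.mem_filter.1 hv).2
            have hva : v ≠ a := by
              rintro rfl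
              exact hcon.1 hv2.symm
            have hvb : v ≠ b := by
              rintro rfl
              exact hcon.2 hv2.symm
            rw [hab]
            simp [hva, hvb]
          exact le_trans (Finset.card_le_card hsub) Finset.card_le_two
      omega
    -- rank-nullity
    set T : (E → ZMod 2) →ₗ[ZMod 2] (V → ZMod 2) := bdL d' with hT
    have hrn := rn (sup K) T
    rw [finrank_sup] at hrn
    have hle1 : finrank (ZMod 2) ((sup K).map T) ≤ Q.card := by
      have : (sup K).map T ≤ sup Q := by
        rintro f ⟨y, hy, rfl⟩ w hw
        show bd d' y w = 0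
        unfold bd
        apply Finset.sum_eq_zero
        intro e _
        by_cases he : e ∈ K
        · have : d' e w = 0 := by
            by_contra hcon
            exact hw (Finset.mem_filter.2 ⟨Finset.mem_univ _, e, he, hcon⟩)
          rw [this, mul_zero]
        · rw [hy e he, zero_mul]
      have h := Submodule.finrank_mono this
      rwa [finrank_sup] at h
    have hle2 : finrank (ZMod 2) (sup K ⊓ LinearMap.ker T : Submodule (ZMod 2) (E → ZMod 2)) ≤
        finrank (ZMod 2) ((cyc d X).map (res K)) := by
      apply Submodule.finrank_mono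
      rintro y ⟨hy, hyk⟩
      have hyk' : ∀ w, ∑ e, y e * d' e w = 0 := fun w => congrFun hyk w
      obtain ⟨x, hx, hxy⟩ := (hπ (bd d y)).2 (fun w => by rw [hbd]; exact hyk' w)
      refine ⟨x + y, ⟨?_, ?_⟩, ?_⟩
      · intro e he
        have h1 : x e = 0 := hx e (fun h => he (Finset.mem_sdiff.1 h).1)
        have h2 : y e = 0 := hy e (fun h => he (hKX h))
        simp [h1, h2]
      · intro v
        have h1 : bd d (x + y) v = bd d x v + bd d y v := by
          have := (bdL d).map_add x y
          exact congrFun this v
        rw [h1, hxy]
        exact z2self _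
      · funext e
        show (if e ∈ K then (x + y) e else 0) = y e
        by_cases he : e ∈ K
        · have h1 : x e = 0 := hx e (fun h => (Finset.mem_sdiff.1 h).2 he)
          simp [he, h1]
        · simp [he, hy e he]
    have hle3 : finrank (ZMod 2) ((cyc d X).map (res K)) ≤
        finrank (ZMod 2) ((cyc d X).map (res F)) := by
      have : (cyc d X).map (res K) = ((cyc d X).map (res F)).map (res K) := by
        rw [← Submodule.map_comp]
        congr 1
        ext y e
        simp only [LinearMap.comp_apply, res, LinearMap.coe_mk, AddHom.coe_mk]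
        by_cases he : e ∈ K
        · simp [he, hKF he]
        · simp [he]
      rw [this]
      exact Submodule.finrank_map_le _ _
    omega

end BN
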