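import Pool.Agent.Helper21.BN.Spec

set_option linter.unusedSectionVars false

namespace BN

open Finset

variable {V E : Type} [Fintype V] [DecidableEq V] [Fintype E] [DecidableEq E]

/-- the boundary as a linear map -/
def bdL (d : E → V → ZMod 2) : (E → ZMod 2) →ₗ[ZMod 2] (V → ZMod 2) where
  toFun z := bd d z
  map_add' a b := by
    funext v
    simp only [bd, Pi.add_apply, add_mul, Finset.sum_add_distrib]
  map_smul' c a := by
    funext v
    simp only [bd, Pi.smul_apply, smul_eq_mul, mul_assoc, ← Finset.mul_sum, RingHom.id_apply]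

/-- restriction of a vertex vector to `B` -/
def resB (B : Finset V) : (V → ZMod 2) →ₗ[ZMod 2] (B → ZMod 2) where
  toFun f := fun v => f v
  map_add' a b := rfl
  map_smul' c a := rfl

theorem res_apply (F : Finset E) (z : E → ZMod 2) (e : E) :
    res F z e = if e ∈ F then z e else 0 := rfl

theorem bd_eq_zero_of {d : E → V → ZMod 2} {F : Finset E} {z : E → ZMod 2} {v : V}
    (h : ∀ e ∈ F, d e v = 0) : bd d (res F z) v = 0 := by
  unfold bd
  apply sum_eq_zero
  intro e _
  by_cases he : e ∈ F
  · rw [h e he, mul_zero]
  · rw [res_apply, if_neg he, zero_mul]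

theorem dim1_thm : S_DIM1 := by
  intro V E _ _ _ _ d F P B hdis hsep
  -- the linear map
  let f : cyc d (F ∪ P) →ₗ[ZMod 2] (B → ZMod 2) :=
    ((resB B).comp ((bdL d).comp (res F))).comp (cyc d (F ∪ P)).subtype
  have hrk := f.finrank_range_add_finrank_ker
  have h1 : Module.finrank (ZMod 2) (LinearMap.range f) ≤ B.card := by
    have := Submodule.finrank_le (LinearMap.range f)
    rw [Module.finrank_fintype_fun_eq_card, Fintype.card_coe] at this
    exact this
  -- kernel
  have hPF : ∀ z : cyc d (F ∪ P), (z : E → ZMod 2) = res F z + res P z := by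
    rintro ⟨z, hz⟩
    funext e
    simp only [Pi.add_apply, res_apply]
    by_cases heF : e ∈ F
    · have heP : e ∉ P := fun h => (disjoint_left.1 hdis) heF h
      simp [heF, heP]
    · by_cases heP : e ∈ P
      · simp [heF, heP]
      · simp only [heF, heP, if_false, add_zero]
        exact hz.1 e (by simp [heF, heP])
  have hker : ∀ z : cyc d (F ∪ P), f z = 0 → ∀ v, bd d (res F (z : E → ZMod 2)) v = 0 := by
    intro z hz v
    by_cases hv : v ∈ B
    · have := congrFun hz ⟨v, hv⟩
      exact this
    · rcases hsep v hv with h | h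
      · exact bd_eq_zero_of h
      · have h2 : bd d (z : E → ZMod 2) v = 0 := z.2.2 v
        have h3 : bd d (z : E → ZMod 2) v = bd d (res F (z : E → ZMod 2)) v +
            bd d (res P (z : E → ZMod 2)) v := by
          conv_lhs => rw [hPF z]
          exact congrFun ((bdL d).map_add (res F (z : E → ZMod 2)) (res P (z : E → ZMod 2))) v
        rw [h2, bd_eq_zero_of h, add_zero] at h3
        exact h3.symm
  have hker' : ∀ z : cyc d (F ∪ P), f z = 0 → ∀ v, bd d (res P (z : E → ZMod 2)) v = 0 := by
    intro z hz v
    have h2 : bd d (z : E → ZMod 2) v = 0 := z.2.2 v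
    have h3 : bd d (z : E → ZMod 2) v = bd d (res F (z : E → ZMod 2)) v +
        bd d (res P (z : E → ZMod 2)) v := by
      conv_lhs => rw [hPF z]
      exact congrFun ((bdL d).map_add (res F (z : E → ZMod 2)) (res P (z : E → ZMod 2))) v
    rw [h2, hker z hz v, zero_add] at h3
    exact h3.symm
  have hresmem : ∀ (Q : Finset E) (z : E → ZMod 2), (∀ v, bd d (res Q z) v = 0) →
      res Q z ∈ cyc d Q := by
    intro Q z h
    refine ⟨fun e he => by rw [res_apply, if_neg he], h⟩
  let g : LinearMap.ker f →ₗ[ZMod 2] (cyc d F × cyc d P) :=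
    { toFun := fun z => (⟨res F (z : cyc d (F ∪ P)), hresmem F _ (hker z z.2)⟩,
        ⟨res P (z : cyc d (F ∪ P)), hresmem P _ (hker' z z.2)⟩)
      map_add' := by
        intro a b
        ext e <;> simp
      map_smul' := by
        intro c a
        ext e <;> simp }
  have hginj : Function.Injective g := by
    intro a b hab
    have h1 : res F ((a : cyc d (F ∪ P)) : E → ZMod 2) = res F ((b : cyc d (F ∪ P)) : E → ZMod 2) := by
      have := congrArg (fun x => ((x.1 : cyc d F) : E → ZMod 2)) hab
      exact this
    have h2 : res P ((a : cyc d (F ∪ P)) : E → ZMod 2) = res P ((b : cyc d (F ∪ P)) : E → ZMod 2) := by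
      have := congrArg (fun x => ((x.2 : cyc d P) : E → ZMod 2)) hab
      exact this
    apply Subtype.ext
    apply Subtype.ext
    rw [hPF a, hPF b, h1, h2]
  have h2 := LinearMap.finrank_le_finrank_of_injective hginj
  rw [Module.finrank_prod] at h2
  omega

end BN
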