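import Pool.Agent.Helper21.BN.DIM1

set_option linter.unusedSectionVars false

namespace BN

open Finset

theorem dim2_thm : S_DIM2 := by
  intro V E _ _ _ _ d X F B hFX hsep
  let W := (cyc d X).map (res F)
  let f : W →ₗ[ZMod 2] (B → ZMod 2) := ((resB B).comp (bdL d)).comp W.subtype
  have hrk := f.finrank_range_add_finrank_ker
  have h1 : Module.finrank (ZMod 2) (LinearMap.range f) ≤ B.card := by
    have := Submodule.finrank_le (LinearMap.range f)
    rw [Module.finrank_fintype_fun_eq_card, Fintype.card_coe] at this
    exact this
  have hsupp : ∀ z : W, ∀ e, e ∉ F → (z : E → ZMod 2) e = 0 := by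
    rintro ⟨z, y, hy, rfl⟩ e he
    show res F y e = 0
    rw [res_apply, if_neg he]
  have hker : ∀ z : W, f z = 0 → (z : E → ZMod 2) ∈ cyc d F := by
    intro z hz
    refine ⟨hsupp z, fun v => ?_⟩
    by_cases hv : v ∈ B
    · exact congrFun hz ⟨v, hv⟩
    · obtain ⟨y, hy, hyz⟩ := z.2
      rw [← hyz]
      rcases hsep v hv with h | h
      · exact bd_eq_zero_of h
      · -- all edges of X outside F vanish at v
        have h2 : bd d y v = 0 := hy.2 v
        have h3 : bd d (res F y) v = bd d y v := by
          unfold bd
          apply sum_congr rfl
          intro e _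
          rw [res_apply]
          by_cases heF : e ∈ F
          · rw [if_pos heF]
          · rw [if_neg heF, zero_mul]
            by_cases heX : e ∈ X
            · rw [h e heX heF, mul_zero]
            · rw [hy.1 e heX, zero_mul]
        rw [h3, h2]
  let g : LinearMap.ker f →ₗ[ZMod 2] cyc d F :=
    { toFun := fun z => ⟨((z : W) : E → ZMod 2), hker z z.2⟩
      map_add' := by
        intro a b
        rfl
      map_smul' := by
        intro c a
        rfl }
  have hginj : Function.Injective g := by
    intro a b hab
    have h1 : ((a : W) : E → ZMod 2) = ((b : W) : E → ZMod 2) := by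
      have := congrArg (fun x => ((x : cyc d F) : E → ZMod 2)) hab
      exact this
    apply Subtype.ext
    apply Subtype.ext
    exact h1
  have h2 := LinearMap.finrank_le_finrank_of_injective hginj
  show Module.finrank (ZMod 2) W ≤ _
  omega

end BN
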