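import Mathlib

/-!
Basis number and treewidth: algebraic definitions.
`d e` is the incidence vector of the edge `e` (a function on the vertices, over the field
with two elements). `cyc d X` is the space of all even (Eulerian) edge vectors supported on `X`.
-/

namespace BN

variable {V E : Type} [Fintype V] [DecidableEq V] [Fintype E] [DecidableEq E]

/-- the boundary of an edge vector -/
def bd (d : E → V → ZMod 2) (z : E → ZMod 2) : V → ZMod 2 := fun v => ∑ e, z e * d e v

/-- even edge vectors supported on `X` -/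
def cyc (d : E → V → ZMod 2) (X : Finset E) : Submodule (ZMod 2) (E → ZMod 2) where
  carrier := {z | (∀ e, e ∉ X → z e = 0) ∧ ∀ v, bd d z v = 0}
  add_mem' := by
    rintro a b ⟨ha, ha'⟩ ⟨hb, hb'⟩
    refine ⟨fun e he => by simp [ha e he, hb e he], fun v => ?_⟩
    have h1 := ha' v
    have h2 := hb' v
    simp only [bd] at h1 h2 ⊢
    simp only [Pi.add_apply, add_mul, Finset.sum_add_distrib, h1, h2, add_zero]
  zero_mem' := ⟨fun _ _ => rfl, fun v => by simp [bd]⟩
  smul_mem' := by
    rintro c a ⟨ha, ha'⟩
    refine ⟨fun e he => by simp [ha e he], fun v => ?_⟩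
    have h1 := ha' v
    simp only [bd] at h1 ⊢
    simp only [Pi.smul_apply, smul_eq_mul, mul_assoc, ← Finset.mul_sum, h1, mul_zero]

/-- restriction of an edge vector to `F` -/
def res (F : Finset E) : (E → ZMod 2) →ₗ[ZMod 2] (E → ZMod 2) where
  toFun z := fun e => if e ∈ F then z e else 0
  map_add' a b := by
    funext e
    by_cases h : e ∈ F <;> simp [h]
  map_smul' c a := by
    funext e
    by_cases h : e ∈ F <;> simp [h]

/-- `e` is a (possibly degenerate) link: its incidence vector is `1_a + 1_b` -/
def IsLink (f : V → ZMod 2) : Prop := ∃ a b : V, f = Pi.single a 1 + Pi.single b 1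

/-- `z` meets at most `s` series classes of `X` -/
def MeetsFew (d : E → V → ZMod 2) (X : Finset E) (s : ℕ) (z : E → ZMod 2) : Prop :=
  ∃ K : Finset E, K.card ≤ s ∧
    ∀ e, z e ≠ 0 → ∃ e' ∈ K, ∀ y ∈ cyc d X, y e = y e'

/-- `𝓑` is a basis of the subspace `C` (as a finite set of vectors) -/
def IsBas (C : Submodule (ZMod 2) (E → ZMod 2)) (𝓑 : Finset (E → ZMod 2)) : Prop :=
  LinearIndependent (ZMod 2) (fun z : 𝓑 => (z : E → ZMod 2)) ∧
    Submodule.span (ZMod 2) (𝓑 : Set (E → ZMod 2)) = C

end BN
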