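import Pool.Agent.Helper21.BN.Spec
import Pool.Agent.Helper91.BN.Lin

namespace BN

open H91 Module

namespace GLaux

variable {V E : Type} [Fintype V] [DecidableEq V] [Fintype E] [DecidableEq E]

/-- size of the support -/
def sc (y : E → ZMod 2) : ℕ := (Finset.univ.filter (fun e => y e ≠ 0)).card

theorem sc_add (x y : E → ZMod 2) : sc (x + y) ≤ sc x + sc y := by
  unfold sc
  refine le_trans (Finset.card_le_card ?_) (Finset.card_union_le _ _)
  intro e he
  rw [Finset.mem_union]
  by_contra hcon
  simp only [Finset.mem_filter, Finset.mem_univ, true_and, not_or, not_not] at hcon he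
  apply he
  rw [Pi.add_apply, hcon.1, hcon.2, add_zero]

theorem sc_single (e : E) : sc (Pi.single e 1 : E → ZMod 2) ≤ 1 := by
  unfold sc
  rw [Finset.card_le_one]
  intro a ha b hb
  simp only [Finset.mem_filter, Finset.mem_univ, true_and, ne_eq] at ha hb
  have h1 : a = e := by
    by_contra h
    exact ha (by simp [h])
  have h2 : b = e := by
    by_contra h
    exact hb (by simp [h])
  rw [h1, h2]

/-- lower bound for the dimension of a subspace of functions on `R` -/
theorem dim1 {R : Type} [Fintype R] [DecidableEq R] (U : Submodule (ZMod 2) (R → ZMod 2)) (v0 : R)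
    (h : ∀ v, (Pi.single v 1 + Pi.single v0 1 : R → ZMod 2) ∈ U) :
    Fintype.card R ≤ finrank (ZMod 2) U + 1 := by
  have htop : (⊤ : Submodule (ZMod 2) (R → ZMod 2)) ≤
      U ⊔ Submodule.span (ZMod 2) {(Pi.single v0 1 : R → ZMod 2)} := by
    intro f _
    rw [← Finset.univ_sum_single f]
    refine Submodule.sum_mem _ (fun v _ => ?_)
    have e1 : (Pi.single v (f v) : R → ZMod 2) =
        f v • ((Pi.single v 1 + Pi.single v0 1) + Pi.single v0 1) := by
      have : (Pi.single v0 1 : R → ZMod 2) + Pi.single v0 1 = 0 := by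
        funext x; exact z2self _
      rw [add_assoc, this, add_zero, ← Pi.single_smul, smul_eq_mul, mul_one]
    rw [e1]
    apply Submodule.smul_mem
    apply Submodule.add_mem
    · exact Submodule.mem_sup_left (h v)
    · exact Submodule.mem_sup_right (Submodule.mem_span_singleton_self _)
  have h1 := Submodule.finrank_mono htop
  rw [finrank_top, finrank_fintype_fun_eq_card] at h1
  refine le_trans h1 (le_trans (Submodule.finrank_add_le_finrank_add_finrank _ _) ?_)
  gcongr
  refine le_trans (finrank_span_le_card _) ?_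
  simp

theorem dim2 {R : Type} [Fintype R] [DecidableEq R] (U : Submodule (ZMod 2) (R → ZMod 2)) (v0 u : R)
    (h : ∀ v, (Pi.single v 1 + Pi.single v0 1 : R → ZMod 2) ∈ U)
    (hu : (Pi.single u 1 : R → ZMod 2) ∈ U) :
    Fintype.card R ≤ finrank (ZMod 2) U := by
  have hv0 : (Pi.single v0 1 : R → ZMod 2) ∈ U := by
    have e1 : (Pi.single v0 1 : R → ZMod 2) = (Pi.single u 1 + Pi.single v0 1) + Pi.single u 1 := by
      have : (Pi.single u 1 : R → ZMod 2) + Pi.single u 1 = 0 := by
        funext x; exact z2self _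
      rw [add_comm (Pi.single u 1 : R → ZMod 2) (Pi.single v0 1), add_assoc, this, add_zero]
    rw [e1]
    exact Submodule.add_mem _ (h u) hu
  have htop : (⊤ : Submodule (ZMod 2) (R → ZMod 2)) ≤ U := by
    intro f _
    rw [← Finset.univ_sum_single f]
    refine Submodule.sum_mem _ (fun v _ => ?_)
    have e1 : (Pi.single v (f v) : R → ZMod 2) =
        f v • ((Pi.single v 1 + Pi.single v0 1) + Pi.single v0 1) := by
      have : (Pi.single v0 1 : R → ZMod 2) + Pi.single v0 1 = 0 := by
        funext x; exact z2self _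
      rw [add_assoc, this, add_zero, ← Pi.single_smul, smul_eq_mul, mul_one]
    rw [e1]
    apply Submodule.smul_mem
    exact Submodule.add_mem _ (h v) hv0
  have h1 := Submodule.finrank_mono htop
  rwa [finrank_top, finrank_fintype_fun_eq_card] at h1

end GLaux

open GLaux

theorem gl_thm : S_GL := by
  classical
  intro V E _ _ _ _ d K J hK hKne hKc hJ
  by_contra hcon0
  have hcon : ∀ y ∈ cyc d K, sc y ≤ 2 * J + 1 → y = 0 := by
    intro y hy hs
    by_contra hne
    exact hcon0 ⟨y, hy, hne, hs⟩
  -- links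
  have hlink : ∀ e ∈ K, ∃ a b, a ≠ b ∧ d e = Pi.single a 1 + Pi.single b 1 := by
    intro e he
    obtain ⟨a, b, hab⟩ := hK e he
    refine ⟨a, b, ?_, hab⟩
    rintro rfl
    have h0 : d e = 0 := by
      rw [hab]; funext x; exact z2self _
    have h1 : (Pi.single e 1 : E → ZMod 2) = 0 := by
      apply hcon
      · refine ⟨fun e' he' => ?_, fun v => ?_⟩
        · have : e' ≠ e := by
            rintro rfl; exact he' he
          simp [this]
        · rw [bd_single, h0]; rfl
      · exact le_trans (sc_single e) (by omega)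
    have h2 := congrFun h1 e
    simp at h2
  -- minimal set
  have hKr : 6 * rk d K ≤ 5 * K.card := by
    have := rk_add d K
    omega
  set 𝒦 : Finset (Finset E) := K.powerset.filter (fun A => A.Nonempty ∧ 6 * rk d A ≤ 5 * A.card)
    with h𝒦
  obtain ⟨K', hK', hmin⟩ := Finset.exists_min_image 𝒦 Finset.card
    ⟨K, by rw [h𝒦, Finset.mem_filter, Finset.mem_powerset]; exact ⟨Finset.Subset.refl _, hKne, hKr⟩⟩
  rw [h𝒦, Finset.mem_filter, Finset.mem_powerset] at hK'
  obtain ⟨hKK, hK'ne, hK'r⟩ := hK'
  have hproper : ∀ A, A ⊂ K' → 5 * A.card ≤ 6 * rk d A := by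
    intro A hA
    rcases A.eq_empty_or_nonempty with rfl | hne
    · simp
    · by_contra hlt
      push Not at hlt
      have h1 : A ∈ 𝒦 := by
        rw [h𝒦, Finset.mem_filter, Finset.mem_powerset]
        exact ⟨hA.1.trans hKK, hne, hlt.le⟩
      have h2 := hmin A h1
      have h3 := Finset.card_lt_card hA
      omega
  obtain ⟨e0, he0⟩ := hK'ne
  obtain ⟨v0, b0, hab0, hde0⟩ := hlink e0 (hKK he0)
  have hlink' : ∀ e ∈ K', ∃ a b, a ≠ b ∧ d e = Pi.single a 1 + Pi.single b 1 :=
    fun e he => hlink e (hKK he)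
  -- the balls
  set R : ℕ → Finset V := fun j => Finset.univ.filter (fun v => ∃ y ∈ sup K', sc y ≤ j ∧
    bd d y = Pi.single v 1 + Pi.single v0 1) with hR
  have memR : ∀ j v, v ∈ R j ↔ ∃ y ∈ sup K', sc y ≤ j ∧ bd d y = Pi.single v 1 + Pi.single v0 1 := by
    intro j v; simp [hR]
  have hv0R : ∀ j, v0 ∈ R j := by
    intro j
    rw [memR]
    refine ⟨0, Submodule.zero_mem _, ?_, ?_⟩
    · simp [sc]
    · funext x
      rw [show bd d (0 : E → ZMod 2) = 0 from (bdL d).map_zero]
      exact (z2self _).symm
  have hRmono : ∀ j, R j ⊆ R (j + 1) := by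
    intro j v hv
    rw [memR] at hv ⊢
    obtain ⟨y, hy, hs, hb⟩ := hv
    exact ⟨y, hy, by omega, hb⟩
  have hRs : ∀ j, ∀ e ∈ K', ∀ u w, d e = Pi.single u 1 + Pi.single w 1 → u ∈ R j → w ∈ R (j + 1) := by
    intro j e he u w hd hu
    rw [memR] at hu ⊢
    obtain ⟨y, hy, hs, hb⟩ := hu
    refine ⟨y + Pi.single e 1, Submodule.add_mem _ hy ?_, ?_, ?_⟩
    · intro e' he'
      have : e' ≠ e := by
        rintro rfl; exact he' he
      simp [this]
    · exact le_trans (sc_add _ _) (by have := sc_single e; omega)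
    · have h1 : bd d (y + Pi.single e 1) = bd d y + bd d (Pi.single e 1) := (bdL d).map_add _ _
      rw [h1, bd_single, hb, hd]
      have h2 : (Pi.single u 1 : V → ZMod 2) + Pi.single u 1 = 0 := by
        funext x; exact z2self _
      calc (Pi.single u 1 + Pi.single v0 1 + (Pi.single u 1 + Pi.single w 1) : V → ZMod 2)
          = (Pi.single u 1 + Pi.single u 1) + (Pi.single w 1 + Pi.single v0 1) := by abel
        _ = _ := by rw [h2, zero_add]
  have hends : ∀ a b : V, ∀ v, (Pi.single a 1 + Pi.single b 1 : V → ZMod 2) v ≠ 0 → v = a ∨ v = b := by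
    intro a b v hv
    by_contra h
    rw [not_or] at h
    apply hv
    simp [h.1, h.2]
  -- (a)
  have ha : ∀ j ≤ J, (K'.filter (fun e => ∀ v, d e v ≠ 0 → v ∈ R j)).card + 1 ≤ (R j).card := by
    intro j hj
    set Ein := K'.filter (fun e => ∀ v, d e v ≠ 0 → v ∈ R j) with hEin
    have hP : ∀ v, ∃ y : E → ZMod 2, v ∈ R j → (y ∈ sup K' ∧ sc y ≤ j ∧
        bd d y = Pi.single v 1 + Pi.single v0 1) := by
      intro v
      by_cases hv : v ∈ R j
      · obtain ⟨y, hy⟩ := (memR j v).1 hv
        exact ⟨y, fun _ => hy⟩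
      · exact ⟨0, fun h => absurd h hv⟩
    choose P hP using hP
    have hsupK : ∀ y ∈ sup K', ∀ e, e ∉ K → y e = 0 := fun y hy e he => hy e (fun h => he (hKK h))
    have hP0 : P v0 = 0 := by
      obtain ⟨h1, h2, h3⟩ := hP v0 (hv0R j)
      apply hcon
      · refine ⟨hsupK _ h1, fun v => ?_⟩
        rw [h3]; exact z2self _
      · omega
    have hspan : sup Ein ≤ Submodule.span (ZMod 2)
        (((R j).erase v0).image P : Set (E → ZMod 2)) := by
      have hPm : ∀ v ∈ R j, P v ∈ Submodule.span (ZMod 2)
          (((R j).erase v0).image P : Set (E → ZMod 2)) := by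
        intro v hv
        by_cases hvv : v = v0
        · rw [hvv, hP0]; exact Submodule.zero_mem _
        · apply Submodule.subset_span
          rw [Finset.mem_coe, Finset.mem_image]
          exact ⟨v, Finset.mem_erase.2 ⟨hvv, hv⟩, rfl⟩
      intro y hy
      rw [← Finset.univ_sum_single y]
      refine Submodule.sum_mem _ (fun e _ => ?_)
      by_cases he : e ∈ Ein
      · have he' := Finset.mem_filter.1 he
        obtain ⟨a, b, hab, hd⟩ := hlink' e he'.1
        have haR : a ∈ R j := he'.2 a (by rw [hd]; simp [hab])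
        have hbR : b ∈ R j := he'.2 b (by rw [hd]; simp [hab.symm])
        obtain ⟨a1, a2, a3⟩ := hP a haR
        obtain ⟨b1, b2, b3⟩ := hP b hbR
        have hz : P a + P b + Pi.single e 1 = 0 := by
          apply hcon
          · refine ⟨?_, ?_⟩
            · intro e' he''
              have : e' ≠ e := by
                rintro rfl; exact he'' (hKK he'.1)
              simp [hsupK _ a1 e' he'', hsupK _ b1 e' he'', this]
            · intro v
              have h1 : bd d (P a + P b + Pi.single e 1) =
                  bd d (P a) + bd d (P b) + bd d (Pi.single e 1) := by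
                rw [← bdL_apply, map_add, map_add]; rfl
              rw [h1, bd_single, a3, b3, hd]
              simp only [Pi.add_apply]
              have h2 := z2self ((Pi.single a 1 : V → ZMod 2) v)
              have h3 := z2self ((Pi.single b 1 : V → ZMod 2) v)
              have h4 := z2self ((Pi.single v0 1 : V → ZMod 2) v)
              linear_combination h2 + h3 + h4
          · have h1 := sc_add (P a + P b) (Pi.single e 1)
            have h2 := sc_add (P a) (P b)
            have h3 := sc_single e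
            omega
        have hs : (Pi.single e 1 : E → ZMod 2) = P a + P b := by
          funext x
          have := congrFun hz x
          simp only [Pi.add_apply, Pi.zero_apply] at this
          exact (z2add _ _ this).symm
        have : (Pi.single e (y e) : E → ZMod 2) = y e • (Pi.single e 1 : E → ZMod 2) := by
          rw [← Pi.single_smul, smul_eq_mul, mul_one]
        rw [this, hs]
        exact Submodule.smul_mem _ _ (Submodule.add_mem _ (hPm a haR) (hPm b hbR))
      · rw [hy e he]
        simp
    have h1 := Submodule.finrank_mono hspan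
    rw [finrank_sup] at h1
    have h2 := finrank_span_finset_le_card (R := ZMod 2) (((R j).erase v0).image P)
    have h2' : Module.finrank (ZMod 2) (Submodule.span (ZMod 2)
        (((R j).erase v0).image P : Set (E → ZMod 2))) ≤ (((R j).erase v0).image P).card := h2
    have h3 := Finset.card_image_le (s := (R j).erase v0) (f := P)
    have h4 := Finset.card_erase_add_one (hv0R j)
    omega
  -- projections
  have hpr : ∀ j, (R j).card + rk d (K' \ K'.filter (fun e => ∃ v ∈ R j, d e v ≠ 0)) ≤ rk d K' + 1 ∧
      ((∃ e ∈ K', ∃ u w, d e = Pi.single u 1 + Pi.single w 1 ∧ u ∈ R j ∧ w ∉ R j) →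
      (R j).card + rk d (K' \ K'.filter (fun e => ∃ v ∈ R j, d e v ≠ 0)) ≤ rk d K') := by
    intro j
    set A := K'.filter (fun e => ∃ v ∈ R j, d e v ≠ 0) with hA
    set ρ : (V → ZMod 2) →ₗ[ZMod 2] ((R j) → ZMod 2) :=
      LinearMap.funLeft (ZMod 2) (ZMod 2) (fun v : (R j) => (v : V)) with hρ
    have hρa : ∀ f v, ρ f v = f v := fun f v => rfl
    have hρs : ∀ v : (R j), ρ (Pi.single (v : V) 1) = Pi.single v 1 := by
      intro v
      funext x
      rw [hρa]
      by_cases h : x = v
      · subst h; simp
      · have h' : (x : V) ≠ v := fun hh => h (Subtype.ext hh)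
        simp [h, h']
    have hρn : ∀ w, w ∉ R j → ρ (Pi.single w 1) = 0 := by
      intro w hw
      funext x
      rw [hρa]
      have h' : (x : V) ≠ w := by
        rintro rfl; exact hw x.2
      simp [h']
    set W := (sup K').map (bdL d) with hW
    have hr := rn W ρ
    have hsub : (sup (K' \ A)).map (bdL d) ≤ W ⊓ LinearMap.ker ρ := by
      rintro f ⟨y, hy, rfl⟩
      refine ⟨⟨y, fun e he => hy e (fun h => he (Finset.mem_sdiff.1 h).1), rfl⟩, ?_⟩
      show ρ (bd d y) = 0
      funext v
      rw [hρa]
      show ∑ e, y e * d e v = 0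
      apply Finset.sum_eq_zero
      intro e _
      by_cases he : e ∈ K' \ A
      · have h1 := Finset.mem_sdiff.1 he
        have h2 : d e v = 0 := by
          by_contra hne
          exact h1.2 (Finset.mem_filter.2 ⟨h1.1, v, v.2, hne⟩)
        rw [h2, mul_zero]
      · rw [hy e he, zero_mul]
    have hsub' : rk d (K' \ A) ≤ finrank (ZMod 2) (W ⊓ LinearMap.ker ρ : Submodule _ _) :=
      Submodule.finrank_mono hsub
    have hWin : ∀ v : (R j), (Pi.single v 1 + Pi.single ⟨v0, hv0R j⟩ 1 : (R j) → ZMod 2) ∈ W.map ρ := by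
      intro v
      obtain ⟨y, hy, -, hb⟩ := (memR j v).1 v.2
      refine ⟨bd d y, ⟨y, hy, rfl⟩, ?_⟩
      rw [hb, map_add, hρs v, hρs ⟨v0, hv0R j⟩]
    have hcardR : Fintype.card (R j) = (R j).card := Fintype.card_coe _
    have hWrk : finrank (ZMod 2) W = rk d K' := rfl
    constructor
    · have := dim1 (W.map ρ) ⟨v0, hv0R j⟩ hWin
      omega
    · rintro ⟨e, he, u, w, hd, hu, hw⟩
      have huin : (Pi.single (⟨u, hu⟩ : (R j)) 1 : (R j) → ZMod 2) ∈ W.map ρ := by
        refine ⟨d e, ⟨Pi.single e 1, ?_, ?_⟩, ?_⟩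
        · intro e' he'
          have : e' ≠ e := by
            rintro rfl; exact he' he
          simp [this]
        · rw [bdL_apply, bd_single]
        · rw [hd, map_add, hρn w hw, add_zero]
          exact hρs ⟨u, hu⟩
      have := dim2 (W.map ρ) ⟨v0, hv0R j⟩ ⟨u, hu⟩ hWin huin
      omega
  -- growth
  have hgrow : ∀ j, j + 1 ≤ J → 6 * (R j).card ≤ 5 * (R (j + 1)).card := by
    intro j hj
    set A := K'.filter (fun e => ∃ v ∈ R j, d e v ≠ 0) with hA
    have hAK : A ⊆ K' := Finset.filter_subset _ _
    have he0A : e0 ∈ A := Finset.mem_filter.2 ⟨he0, v0, hv0R j, by rw [hde0]; simp [hab0]⟩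
    have hss : K' \ A ⊂ K' := by
      refine ⟨Finset.sdiff_subset, fun h => ?_⟩
      exact (Finset.mem_sdiff.1 (h he0)).2 he0A
    have h1 := hproper _ hss
    have h2 := Finset.card_sdiff_add_card_eq_card hAK
    have h3 : (R j).card + rk d (K' \ A) ≤ rk d K' + 1 := (hpr j).1
    have h4 : (∃ e ∈ K', ∃ u w, d e = Pi.single u 1 + Pi.single w 1 ∧ u ∈ R j ∧ w ∉ R j) →
      (R j).card + rk d (K' \ A) ≤ rk d K' := (hpr j).2
    by_cases hout : ∃ e ∈ K', ∃ u w, d e = Pi.single u 1 + Pi.single w 1 ∧ u ∈ R j ∧ w ∉ R j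
    · have h5 := h4 hout
      have h6 : A ⊆ K'.filter (fun e => ∀ v, d e v ≠ 0 → v ∈ R (j + 1)) := by
        intro e he
        obtain ⟨heK, v, hv, hdv⟩ := Finset.mem_filter.1 he
        obtain ⟨a, b, hab, hd⟩ := hlink' e heK
        have hboth : a ∈ R (j + 1) ∧ b ∈ R (j + 1) := by
          rw [hd] at hdv
          rcases hends a b v hdv with rfl | rfl
          · exact ⟨hRmono j hv, hRs j e heK v b hd hv⟩
          · exact ⟨hRs j e heK v a (by rw [hd, add_comm]) hv, hRmono j hv⟩
        refine Finset.mem_filter.2 ⟨heK, fun x hx => ?_⟩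
        rw [hd] at hx
        rcases hends a b x hx with rfl | rfl
        · exact hboth.1
        · exact hboth.2
      have h7 := Finset.card_le_card h6
      have h8 := ha (j + 1) hj
      omega
    · exfalso
      have hclosed : ∀ e ∈ K', ∀ u w, d e = Pi.single u 1 + Pi.single w 1 → u ∈ R j → w ∈ R j := by
        intro e he u w hd hu
        by_contra hw
        exact hout ⟨e, he, u, w, hd, hu, hw⟩
      have h6 : A ⊆ K'.filter (fun e => ∀ v, d e v ≠ 0 → v ∈ R j) := by
        intro e he
        obtain ⟨heK, v, hv, hdv⟩ := Finset.mem_filter.1 he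
        obtain ⟨a, b, hab, hd⟩ := hlink' e heK
        have hboth : a ∈ R j ∧ b ∈ R j := by
          rw [hd] at hdv
          rcases hends a b v hdv with rfl | rfl
          · exact ⟨hv, hclosed e heK v b hd hv⟩
          · exact ⟨hclosed e heK v a (by rw [hd, add_comm]) hv, hv⟩
        refine Finset.mem_filter.2 ⟨heK, fun x hx => ?_⟩
        rw [hd] at hx
        rcases hends a b x hx with rfl | rfl
        · exact hboth.1
        · exact hboth.2
      have h7 := Finset.card_le_card h6
      have h8 := ha j (by omega)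
      have hb0 : b0 ∈ R j := hclosed e0 he0 v0 b0 hde0 (hv0R j)
      have h9 : 1 < (R j).card := Finset.one_lt_card.2 ⟨v0, hv0R j, b0, hb0, hab0⟩
      omega
  -- conclusion
  have hind : ∀ j ≤ J, 6 ^ j ≤ 5 ^ j * (R j).card := by
    intro j
    induction j with
    | zero =>
      intro _
      have : 0 < (R 0).card := Finset.card_pos.2 ⟨v0, hv0R 0⟩
      simp only [pow_zero, one_mul]
      omega
    | succ j ih =>
      intro hj
      have h1 := ih (by omega)
      have h2 := hgrow j hj
      calc 6 ^ (j + 1) = 6 * 6 ^ j := by ring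
        _ ≤ 6 * (5 ^ j * (R j).card) := by gcongr
        _ = 5 ^ j * (6 * (R j).card) := by ring
        _ ≤ 5 ^ j * (5 * (R (j + 1)).card) := by gcongr
        _ = _ := by ring
  have h1 := hind J le_rfl
  have h2 : (R J).card ≤ K.card + 1 := by
    have h3 := (hpr J).1
    have h4 := rk_add d K'
    have h5 := Finset.card_le_card hKK
    omega
  have h3 : 6 ^ J ≤ (K.card + 1) * 5 ^ J := by
    calc 6 ^ J ≤ 5 ^ J * (R J).card := h1
      _ ≤ 5 ^ J * (K.card + 1) := by gcongr
      _ = _ := by ring
  omega

end BN
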