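import Pool.Agent.Helper21.BN.Spec

namespace BN

open Finset

theorem mm_thm : S_MM := by
  intro I E _ _ P C H
  classical
  by_contra hcon
  push Not at hcon
  -- the compact convex set
  let L : (I → ℝ) →ₗ[ℝ] (E → ℝ) :=
    { toFun := fun μ e => ∑ i, μ i * (P i e - C)
      map_add' := by
        intro a b; funext e
        simp only [Pi.add_apply, add_mul, sum_add_distrib]
      map_smul' := by
        intro c a; funext e
        simp only [Pi.smul_apply, smul_eq_mul, RingHom.id_apply, mul_sum, mul_assoc] }
  have hLc : Continuous L := L.continuous_of_finiteDimensional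
  let K : Set (E → ℝ) := L '' stdSimplex ℝ I
  let N : Set (E → ℝ) := {x | ∀ e, x e ≤ 0}
  have hKc : Convex ℝ K := (convex_stdSimplex ℝ I).linear_image L
  have hKk : IsCompact K := (isCompact_stdSimplex ℝ I).image hLc
  have hNc : Convex ℝ N := by
    intro x hx y hy a b ha hb hab e
    have h1 := mul_nonneg_of_nonpos_of_nonpos (neg_nonpos.2 ha) (hx e)
    have h2 := mul_nonneg_of_nonpos_of_nonpos (neg_nonpos.2 hb) (hy e)
    simp only [Pi.add_apply, Pi.smul_apply, smul_eq_mul]
    linarith
  have hNcl : IsClosed N := by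
    have : N = ⋂ e, {x : E → ℝ | x e ≤ 0} := by
      ext x; simp [N]
    rw [this]
    exact isClosed_iInter (fun e => isClosed_le (continuous_apply e) continuous_const)
  have hdis : Disjoint K N := by
    rw [Set.disjoint_left]
    rintro x ⟨μ, hμ, rfl⟩ hx
    obtain ⟨e, he⟩ := hcon μ hμ.1 hμ.2
    have h1 : L μ e ≤ 0 := hx e
    have h2 : L μ e = ∑ i, μ i * P i e - C := by
      show ∑ i, μ i * (P i e - C) = _
      simp only [mul_sub, sum_sub_distrib, ← sum_mul]
      rw [hμ.2, one_mul]
    rw [h2] at h1
    linarith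
  obtain ⟨f, u, v, hf1, huv, hf2⟩ := geometric_hahn_banach_compact_closed hKc hKk hNc hNcl hdis
  have hv : v < 0 := by
    have := hf2 0 (fun e => le_rfl)
    simpa using this
  -- coordinates
  have hfx : ∀ x : E → ℝ, f x = ∑ e, x e * f (Pi.single e 1) := by
    intro x
    have h1 : x = ∑ e, x e • (Pi.single e (1 : ℝ) : E → ℝ) := by
      funext e'
      simp [Finset.sum_apply, Pi.single_apply]
    conv_lhs => rw [h1]
    rw [map_sum]
    apply sum_congr rfl
    intro e _
    rw [map_smul, smul_eq_mul]
  have hneg : ∀ e, f (Pi.single e 1) ≤ 0 := by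
    intro e
    by_contra hpos
    push Not at hpos
    -- take t = -v / f e
    set c := f (Pi.single e 1) with hc
    have hmem : (-(-v / c)) • (Pi.single e (1 : ℝ) : E → ℝ) ∈ N := by
      intro e'
      have ht : 0 ≤ -v / c := div_nonneg (by linarith) hpos.le
      by_cases h : e' = e
      · subst h; simp only [Pi.smul_apply, Pi.single_eq_same, smul_eq_mul, mul_one]; linarith
      · simp only [Pi.smul_apply, Pi.single_eq_of_ne h, smul_eq_mul, mul_zero, le_refl]
    have h3 := hf2 _ hmem
    rw [map_smul, smul_eq_mul, ← hc] at h3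
    have h4 : -(-v / c) * c = v := by
      field_simp
    rw [h4] at h3
    exact lt_irrefl _ h3
  obtain ⟨i, hi⟩ := H (fun e => - f (Pi.single e 1)) (fun e => by linarith [hneg e])
  have h5 : L (Pi.single i 1) ∈ K := ⟨_, single_mem_stdSimplex ℝ i, rfl⟩
  have h6 := hf1 _ h5
  have h7 : L (Pi.single i 1) = fun e => P i e - C := by
    funext e
    show ∑ j, (Pi.single i (1 : ℝ) : I → ℝ) j * (P j e - C) = _
    rw [sum_eq_single i]
    · simp
    · intro j _ hj; simp [Pi.single_eq_of_ne hj]
    · intro h; exact absurd (mem_univ _) h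
  rw [h7, hfx] at h6
  have h8 : ∑ e, (P i e - C) * f (Pi.single e 1) =
      -(∑ e, - f (Pi.single e 1) * P i e - C * ∑ e, - f (Pi.single e 1)) := by
    rw [mul_sum, ← sum_sub_distrib, ← sum_neg_distrib]
    apply sum_congr rfl
    intro e _
    ring
  rw [h8] at h6
  linarith

end BN
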