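import Pool.Agent.Helper21.BN.Defs

/-!
Exact statements of all parts (as Props). Prove `theorem xxx_thm : S_XXX := ...`.
-/

namespace BN

/-- Q: contraction. For an edge set `X` of links, the classes of the relation
there is an edge vector supported on `X` with boundary `1_u + 1_v` (represented by a
map `π : V → V`): a vertex vector is a boundary of a vector supported on `X` iff all its
class sums vanish. -/
def S_Q : Prop :=
  ∀ (V E : Type) [Fintype V] [DecidableEq V] [Fintype E] [DecidableEq E]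
    (d : E → V → ZMod 2) (X : Finset E), (∀ e ∈ X, IsLink (d e)) →
    ∃ π : V → V, ∀ f : V → ZMod 2,
      (∃ x : E → ZMod 2, (∀ e, e ∉ X → x e = 0) ∧ bd d x = f) ↔
        ∀ w, ∑ v ∈ Finset.univ.filter (fun v => π v = w), f v = 0

/-- C3: number of series classes met by `F` is at most three times the dimension of
the restriction of `cyc d X` to `F`. -/
def S_C3 : Prop :=
  ∀ (V E : Type) [Fintype V] [DecidableEq V] [Fintype E] [DecidableEq E]
    (d : E → V → ZMod 2) (X F : Finset E), (∀ e ∈ X, IsLink (d e)) → F ⊆ X →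
    ∃ K ⊆ F,
      (∀ e ∈ F, (∀ z ∈ cyc d X, z e = 0) ∨ ∃ e' ∈ K, ∀ z ∈ cyc d X, z e = z e') ∧
      K.card ≤ 3 * Module.finrank (ZMod 2) ((cyc d X).map (res F))

/-- GL: a multigraph with many independent cycles has a short cycle. -/
def S_GL : Prop :=
  ∀ (V E : Type) [Fintype V] [DecidableEq V] [Fintype E] [DecidableEq E]
    (d : E → V → ZMod 2) (K : Finset E) (J : ℕ), (∀ e ∈ K, IsLink (d e)) → K.Nonempty →
    K.card ≤ 6 * Module.finrank (ZMod 2) (cyc d K) → (K.card + 1) * 5 ^ J < 6 ^ J →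
    ∃ y ∈ cyc d K, y ≠ 0 ∧ (Finset.univ.filter (fun e => y e ≠ 0)).card ≤ 2 * J + 1

/-- M5: a local piece `F` with `1 ≤ dim cyc F` and `dim (cyc X)|_F ≤ 2 dim cyc F`
gives a cycle meeting few series classes. -/
def S_M5 : Prop :=
  ∀ (V E : Type) [Fintype V] [DecidableEq V] [Fintype E] [DecidableEq E]
    (d : E → V → ZMod 2) (X F : Finset E) (J : ℕ), (∀ e ∈ X, IsLink (d e)) → F ⊆ X →
    1 ≤ Module.finrank (ZMod 2) (cyc d F) →
    Module.finrank (ZMod 2) ((cyc d X).map (res F)) ≤ 2 * Module.finrank (ZMod 2) (cyc d F) →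
    (6 * Module.finrank (ZMod 2) (cyc d F) + 1) * 5 ^ J < 6 ^ J →
    ∃ z ∈ cyc d X, z ≠ 0 ∧ MeetsFew d X (2 * J + 1) z

/-- DIM1 -/
def S_DIM1 : Prop :=
  ∀ (V E : Type) [Fintype V] [DecidableEq V] [Fintype E] [DecidableEq E]
    (d : E → V → ZMod 2) (F P : Finset E) (B : Finset V), Disjoint F P →
    (∀ v, v ∉ B → (∀ e ∈ F, d e v = 0) ∨ (∀ e ∈ P, d e v = 0)) →
    Module.finrank (ZMod 2) (cyc d (F ∪ P)) ≤
      Module.finrank (ZMod 2) (cyc d F) + Module.finrank (ZMod 2) (cyc d P) + B.card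

/-- DIM2 -/
def S_DIM2 : Prop :=
  ∀ (V E : Type) [Fintype V] [DecidableEq V] [Fintype E] [DecidableEq E]
    (d : E → V → ZMod 2) (X F : Finset E) (B : Finset V), F ⊆ X →
    (∀ v, v ∉ B → (∀ e ∈ F, d e v = 0) ∨ (∀ e ∈ X, e ∉ F → d e v = 0)) →
    Module.finrank (ZMod 2) ((cyc d X).map (res F)) ≤
      Module.finrank (ZMod 2) (cyc d F) + B.card

/-- rooted tree structure of a finite tree -/
def S_TREE1 : Prop :=
  ∀ (N : Type) [Finite N] (T : SimpleGraph N), T.IsTree →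
    ∃ (r : N) (p : N → N) (dep : N → ℕ), (∀ x, x ≠ r → dep x = dep (p x) + 1) ∧
      ∀ a b, T.Adj a b → (a ≠ r ∧ p a = b) ∨ (b ≠ r ∧ p b = a)

/-- `Below r p y z`: the node `z` lies in the subtree below `y`. -/
def Below {N : Type} (r : N) (p : N → N) (y z : N) : Prop :=
  Relation.ReflTransGen (fun a b => a ≠ r ∧ p a = b) z y

/-- TREE2: selection of the local piece `F`. `n e` is the node to which the edge `e` is
assigned. -/
def S_TREE2 : Prop :=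
  ∀ (V E N : Type) [Fintype V] [DecidableEq V] [Fintype E] [DecidableEq E] [Finite N]
    (d : E → V → ZMod 2) (X : Finset E) (r : N) (p : N → N) (dep : N → ℕ)
    (B : N → Finset V) (n : E → N) (k : ℕ),
    (∀ x, x ≠ r → dep x = dep (p x) + 1) →
    (∀ x, Below r p r x) →
    (∀ e ∈ X, ∃ a b, a ≠ b ∧ d e = Pi.single a 1 + Pi.single b 1) →
    (∀ x, (B x).card ≤ k + 1) →
    (∀ e ∈ X, ∀ v, d e v ≠ 0 → v ∈ B (n e)) →
    (∀ y, y ≠ r → ∀ e₁ ∈ X, ∀ e₂ ∈ X, Below r p y (n e₁) → ¬ Below r p y (n e₂) →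
      ∀ v, d e₁ v ≠ 0 → d e₂ v ≠ 0 → v ∈ B (p y)) →
    1 ≤ Module.finrank (ZMod 2) (cyc d X) →
    ∃ F ⊆ X, 1 ≤ Module.finrank (ZMod 2) (cyc d F) ∧
      Module.finrank (ZMod 2) (cyc d F) ≤ 3 * k + 1 ∧
      Module.finrank (ZMod 2) ((cyc d X).map (res F)) ≤ 2 * Module.finrank (ZMod 2) (cyc d F)

/-- TREE3: separation in a rooted tree decomposition. -/
def S_TREE3 : Prop :=
  ∀ (V N : Type) (T : SimpleGraph N) (r : N) (p : N → N)
    (B : N → Finset V),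
    (∀ a b, T.Adj a b → (a ≠ r ∧ p a = b) ∨ (b ≠ r ∧ p b = a)) →
    (∀ v : V, (T.induce {x | v ∈ B x}).Preconnected) →
    ∀ y, y ≠ r → ∀ z z', Below r p y z → ¬ Below r p y z' → ∀ v, v ∈ B z → v ∈ B z' →
      v ∈ B (p y)

/-- WT: from cycles meeting few series classes to light cycle bases. -/
def S_WT : Prop :=
  ∀ (V E : Type) [Fintype V] [DecidableEq V] [Fintype E] [DecidableEq E]
    (d : E → V → ZMod 2) (X₀ : Finset E) (s : ℕ),
    (∀ X ⊆ X₀, cyc d X ≠ ⊥ → ∃ z ∈ cyc d X, z ≠ 0 ∧ MeetsFew d X s z) →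
    ∀ w : E → ℝ, (∀ e, 0 ≤ w e) →
      ∃ 𝓑 : Finset (E → ZMod 2), IsBas (cyc d X₀) 𝓑 ∧
        ∑ z ∈ 𝓑, ∑ e, (if z e ≠ 0 then w e else 0) ≤ s * ∑ e ∈ X₀, w e

/-- MM: finite minimax. -/
def S_MM : Prop :=
  ∀ (I E : Type) [Fintype I] [Fintype E] (P : I → E → ℝ) (C : ℝ),
    (∀ w : E → ℝ, (∀ e, 0 ≤ w e) → ∃ i, ∑ e, w e * P i e ≤ C * ∑ e, w e) →
    ∃ μ : I → ℝ, (∀ i, 0 ≤ μ i) ∧ ∑ i, μ i = 1 ∧ ∀ e, ∑ i, μ i * P i e ≤ C

/-- PW: a linear edge order all of whose cuts have at most `k+1` vertices gives a basis of ply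
at most `k+1`. -/
def S_PW : Prop :=
  ∀ (V : Type) [Fintype V] [DecidableEq V] (m k : ℕ) (d : Fin m → V → ZMod 2),
    (∀ e, IsLink (d e)) →
    (∀ i : Fin m, ∃ B : Finset V, B.card ≤ k + 1 ∧
      ∀ v, v ∉ B → (∀ e, e ≤ i → d e v = 0) ∨ (∀ e, i < e → d e v = 0)) →
    ∃ 𝓑 : Finset (Fin m → ZMod 2), IsBas (cyc d Finset.univ) 𝓑 ∧
      ∀ e, (𝓑.filter (fun z => z e ≠ 0)).card ≤ k + 1

end BN
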