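import Pool.Agent.Helper21.BN.Spec

/-! Parts TREE1 and TREE3. -/

namespace BN

theorem tree1_thm : S_TREE1 := by
  classical
  intro N _ T hT
  haveI : Fintype N := Fintype.ofFinite N
  obtain ⟨r⟩ := hT.connected.nonempty
  have hex : ∀ x, x ≠ r → ∃ y, T.Adj x y ∧ T.dist r x = T.dist r y + 1 := by
    intro x hx
    obtain ⟨w, hw⟩ := (hT.connected.preconnected x r).exists_walk_length_eq_dist
    cases w with
    | nil => exact absurd rfl hx
    | @cons _ y _ h q =>
      refine ⟨y, h, ?_⟩
      rw [SimpleGraph.Walk.length_cons] at hw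
      have h1 : T.dist y r ≤ q.length := SimpleGraph.dist_le q
      have h2 : T.dist x r ≤ T.dist x y + T.dist y r := hT.connected.dist_triangle
      have h3 : T.dist x y = 1 := SimpleGraph.dist_eq_one_iff_adj.2 h
      rw [SimpleGraph.dist_comm (u := r) (v := x), SimpleGraph.dist_comm (u := r) (v := y)]
      omega
  choose! p hp1 hp2 using hex
  refine ⟨r, p, fun x => T.dist r x, hp2, fun a b hab => ?_⟩
  have hsub : (Finset.univ.erase r).image (fun x => s(x, p x)) ⊆ T.edgeFinset := by
    intro e he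
    obtain ⟨x, hx, rfl⟩ := Finset.mem_image.1 he
    rw [SimpleGraph.mem_edgeFinset, SimpleGraph.mem_edgeSet]
    exact hp1 x (Finset.ne_of_mem_erase hx)
  have hinj : Set.InjOn (fun x => s(x, p x)) (Finset.univ.erase r : Finset N) := by
    intro x hx y hy hxy
    have hx' : x ≠ r := Finset.ne_of_mem_erase hx
    have hy' : y ≠ r := Finset.ne_of_mem_erase hy
    rcases Sym2.eq_iff.1 hxy with h | h
    · exact h.1
    · have h1 := hp2 x hx'
      have h2 := hp2 y hy'
      rw [h.2] at h1
      rw [← h.1] at h2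
      omega
  have hcard : T.edgeFinset.card ≤ ((Finset.univ.erase r).image (fun x => s(x, p x))).card := by
    rw [Finset.card_image_of_injOn hinj, Finset.card_erase_of_mem (Finset.mem_univ r),
      Finset.card_univ]
    have := hT.card_edgeFinset
    omega
  have heq := Finset.eq_of_subset_of_card_le hsub hcard
  have hmem : s(a, b) ∈ (Finset.univ.erase r).image (fun x => s(x, p x)) := by
    rw [heq, SimpleGraph.mem_edgeFinset, SimpleGraph.mem_edgeSet]
    exact hab
  obtain ⟨x, hx, hxe⟩ := Finset.mem_image.1 hmem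
  have hx' : x ≠ r := Finset.ne_of_mem_erase hx
  rcases Sym2.eq_iff.1 hxe with h | h
  · left
    rw [← h.1]; exact ⟨hx', h.2⟩
  · right
    rw [← h.1]; exact ⟨hx', h.2⟩

theorem tree3_thm : S_TREE3 := by
  intro V N T r p B hadj hconn y hy z z' hz hz' v hvz hvz'
  obtain ⟨w⟩ := hconn v ⟨z, hvz⟩ ⟨z', hvz'⟩
  obtain ⟨dd, -, hd1, hd2⟩ := w.exists_boundary_dart {x | Below r p y x.1} hz hz'
  have hT : T.Adj dd.fst.1 dd.snd.1 := dd.adj
  simp only [Set.mem_ofPred_eq] at hd1 hd2
  rcases hadj _ _ hT with ⟨h1, h2⟩ | ⟨h1, h2⟩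
  · rcases Relation.ReflTransGen.cases_head hd1 with h3 | ⟨c, ⟨-, hc⟩, h3⟩
    · have h4 := dd.snd.2
      simp only [Set.mem_ofPred_eq] at h4
      rw [← h2, h3] at h4
      exact h4
    · exact absurd (by rw [← h2, hc]; exact h3) hd2
  · exact absurd (Relation.ReflTransGen.head ⟨h1, h2⟩ hd1) hd2

end BN
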