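import Pool.Agent.Helper21.BN.Spec

/-! Part TREE2. -/

namespace BN

open Module Finset

variable {N : Type} {r : N} {p : N → N} {dep : N → ℕ}

theorem below_dep (hdep : ∀ x, x ≠ r → dep x = dep (p x) + 1) {y z : N} (h : Below r p y z) :
    y = z ∨ dep y < dep z := by
  induction h with
  | refl => exact Or.inl rfl
  | @tail b c _ h2 ih =>
    right
    have h3 := hdep b h2.1
    rw [h2.2] at h3
    rcases ih with h | h
    · rw [← h]; omega
    · omega

theorem below_unique (hdep : ∀ x, x ≠ r → dep x = dep (p x) + 1) {y y' z : N}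
    (h : Below r p y z) (h' : Below r p y' z) (hd : dep y = dep y') : y = y' := by
  have hu : Relator.RightUnique (fun a b : N => a ≠ r ∧ p a = b) := by
    intro a b c hb hc
    rw [← hb.2, ← hc.2]
  rcases Relation.ReflTransGen.total_of_right_unique hu h h' with h1 | h1
  · rcases below_dep hdep h1 with h2 | h2
    · exact h2.symm
    · omega
  · rcases below_dep hdep h1 with h2 | h2
    · exact h2
    · omega

theorem tree2_thm (h1 : S_DIM1) (h2 : S_DIM2) : S_TREE2 := by
  classical
  intro V E N _ _ _ _ _ d X r p dep B n k hdep hbel hd hB hn hsep hX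
  rcases Nat.lt_or_ge (3 * k + 1) (finrank (ZMod 2) (cyc d X)) with hbig | hsmall
  swap
  · exact ⟨X, Subset.refl X, hX, hsmall,
      (Submodule.finrank_map_le _ _).trans (by omega)⟩
  let Ex : N → Finset E := fun x => X.filter fun e => Below r p x (n e)
  have hExr : Ex r = X := by
    apply filter_true_of_mem
    intro e _
    exact hbel _
  obtain ⟨x, hx, hmax⟩ := Set.exists_max_image {x | k + 1 ≤ finrank (ZMod 2) (cyc d (Ex x))} dep
    (Set.toFinite _) ⟨r, by
      show k + 1 ≤ finrank (ZMod 2) (cyc d (Ex r))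
      rw [hExr]; omega⟩
  have hx' : k + 1 ≤ finrank (ZMod 2) (cyc d (Ex x)) := hx
  have hchild : ∀ y, y ≠ r → p y = x → finrank (ZMod 2) (cyc d (Ex y)) ≤ k := by
    intro y hy hyx
    by_contra hc
    have h3 := hmax y (by show k + 1 ≤ _; omega)
    have h4 := hdep y hy
    rw [hyx] at h4
    omega
  -- nice sets
  let Nice : Finset E → Prop := fun F => F ⊆ Ex x ∧ ∀ y, y ≠ r → p y = x → Ex y ⊆ F ∨ Disjoint (Ex y) F
  have hmem : ∀ e ∈ Ex x, n e = x ∨ ∃ y, y ≠ r ∧ p y = x ∧ e ∈ Ex y := by
    intro e he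
    obtain ⟨heX, hb⟩ := mem_filter.1 he
    rcases Relation.ReflTransGen.cases_tail hb with h | ⟨y, h3, h4, h5⟩
    · exact Or.inl h.symm
    · exact Or.inr ⟨y, h4, h5, mem_filter.2 ⟨heX, h3⟩⟩
  have hzero : finrank (ZMod 2) (cyc d (∅ : Finset E)) ≤ k := by
    have : cyc d (∅ : Finset E) = ⊥ := by
      rw [eq_bot_iff]
      intro z hz
      rw [Submodule.mem_bot]
      funext e
      exact hz.1 e (notMem_empty e)
    rw [this, finrank_bot]; omega
  obtain ⟨F1, ⟨hF1n, hF1k⟩, hF1max⟩ := Set.exists_max_image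
    {F : Finset E | Nice F ∧ finrank (ZMod 2) (cyc d F) ≤ k} card (Set.toFinite _)
    ⟨∅, ⟨empty_subset _, fun y _ _ => Or.inr (disjoint_empty_right _)⟩, hzero⟩
  have hne : ∃ e ∈ Ex x, e ∉ F1 := by
    by_contra hc
    push Not at hc
    have : F1 = Ex x := Subset.antisymm hF1n.1 hc
    rw [this] at hF1k
    omega
  obtain ⟨e, he, heF⟩ := hne
  have hEX : ∀ y, Ex y ⊆ X := fun y => filter_subset _ _
  have hdisjch : ∀ y y', y ≠ r → y' ≠ r → p y = x → p y' = x → y ≠ y' → Disjoint (Ex y) (Ex y') := by
    intro y y' hy hy' hyx hyx' hyy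
    rw [disjoint_left]
    intro e' h3 h4
    apply hyy
    apply below_unique hdep (mem_filter.1 h3).2 (mem_filter.1 h4).2
    rw [hdep y hy, hdep y' hy', hyx, hyx']
  -- the new piece
  obtain ⟨P, heP, hPx, hPk, hPd, hPn, hPs⟩ : ∃ P : Finset E, e ∈ P ∧ P ⊆ Ex x ∧
      finrank (ZMod 2) (cyc d P) ≤ k ∧ Disjoint F1 P ∧
      (∀ y, y ≠ r → p y = x → Ex y ⊆ P ∨ Disjoint (Ex y) P) ∧
      (∀ v, v ∉ B x → (∀ e ∈ F1, d e v = 0) ∨ (∀ e ∈ P, d e v = 0)) := by
    rcases hmem e he with hex | ⟨y, hy, hyx, hey⟩
    · refine ⟨{e}, mem_singleton_self e, singleton_subset_iff.2 he, ?_, ?_, ?_, ?_⟩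
      · have : cyc d ({e} : Finset E) = ⊥ := by
          rw [eq_bot_iff]
          intro z hz
          rw [Submodule.mem_bot]
          have h3 : ∀ e', e' ≠ e → z e' = 0 := fun e' he' => hz.1 e' (by simpa using he')
          obtain ⟨a, b, hab, hde⟩ := hd e (hEX x he)
          have h4 := hz.2 a
          unfold bd at h4
          rw [Finset.sum_eq_single e (fun e' _ he' => by rw [h3 e' he', zero_mul])
            (fun h => absurd (mem_univ e) h), hde] at h4
          simp only [Pi.add_apply, Pi.single_eq_same, Pi.single_apply, if_neg hab, add_zero,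
            mul_one] at h4
          funext e'
          by_cases hc : e' = e
          · rw [hc]; exact h4
          · exact h3 e' hc
        rw [this, finrank_bot]; omega
      · rw [disjoint_singleton_right]; exact heF
      · intro y hy hyx
        right
        rw [disjoint_singleton_right]
        intro hc
        have h3 := (mem_filter.1 hc).2
        rw [hex] at h3
        have h4 := hdep y hy
        rw [hyx] at h4
        rcases below_dep hdep h3 with h5 | h5
        · rw [h5] at h4; omega
        · omega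
      · intro v hv
        right
        intro e' he'
        rw [mem_singleton.1 he']
        by_contra hc
        apply hv
        rw [← hex]
        exact hn e (hEX x he) v hc
    · refine ⟨Ex y, hey, ?_, hchild y hy hyx, ?_, ?_, ?_⟩
      · intro e' he'
        obtain ⟨h3, h4⟩ := mem_filter.1 he'
        exact mem_filter.2 ⟨h3, Relation.ReflTransGen.tail h4 ⟨hy, hyx⟩⟩
      · rcases hF1n.2 y hy hyx with h3 | h3
        · exact absurd (h3 hey) heF
        · exact h3.symm
      · intro y' hy' hyx'
        by_cases hc : y' = y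
        · left; rw [hc]
        · right; exact hdisjch y' y hy' hy hyx' hyx hc
      · intro v hv
        by_contra hc
        push Not at hc
        obtain ⟨⟨e1, he1, hv1⟩, e2, he2, hv2⟩ := hc
        apply hv
        rw [← hyx]
        refine hsep y hy e2 (hEX y he2) e1 (hEX x (hF1n.1 he1)) (mem_filter.1 he2).2 ?_ v hv2 hv1
        intro h3
        have h4 : e1 ∈ Ex y := mem_filter.2 ⟨hEX x (hF1n.1 he1), h3⟩
        rcases hF1n.2 y hy hyx with h5 | h5
        · exact heF (h5 hey)
        · exact disjoint_left.1 h5 h4 he1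
  have hFn : Nice (F1 ∪ P) := by
    refine ⟨union_subset hF1n.1 hPx, fun y hy hyx => ?_⟩
    rcases hF1n.2 y hy hyx with h3 | h3
    · exact Or.inl (h3.trans subset_union_left)
    · rcases hPn y hy hyx with h4 | h4
      · exact Or.inl (h4.trans subset_union_right)
      · exact Or.inr (disjoint_union_right.2 ⟨h3, h4⟩)
  have hcard : F1.card < (F1 ∪ P).card := by
    apply card_lt_card
    refine ⟨subset_union_left, fun h => heF (h (mem_union_right _ heP))⟩
  have hFk : k + 1 ≤ finrank (ZMod 2) (cyc d (F1 ∪ P)) := by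
    by_contra hc
    have := hF1max (F1 ∪ P) ⟨hFn, by omega⟩
    omega
  have hFX : F1 ∪ P ⊆ X := hFn.1.trans (hEX x)
  have hc1 := h1 V E d F1 P (B x) hPd hPs
  have hc2 := h2 V E d X (F1 ∪ P) (B x) hFX (by
    intro v hv
    by_contra hc
    push Not at hc
    obtain ⟨⟨e1, he1, hv1⟩, e2, he2, he2F, hv2⟩ := hc
    rcases hmem e1 (hFn.1 he1) with h3 | ⟨y, hy, hyx, h3⟩
    · apply hv
      rw [← h3]
      exact hn e1 (hFX he1) v hv1
    · apply hv
      rw [← hyx]
      refine hsep y hy e1 (hFX he1) e2 he2 (mem_filter.1 h3).2 ?_ v hv1 hv2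
      intro h4
      rcases hFn.2 y hy hyx with h5 | h5
      · exact he2F (h5 (mem_filter.2 ⟨he2, h4⟩))
      · exact disjoint_left.1 h5 h3 he1)
  have hBx := hB x
  exact ⟨F1 ∪ P, hFX, by omega, by omega, by omega⟩

end BN
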