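import Pool.Agent.Helper21.BN.Spec

set_option linter.unusedSectionVars false

namespace BN

open Finset

variable {V E : Type} [Fintype V] [DecidableEq V] [Fintype E] [DecidableEq E]

theorem zmod2_sub_eq_zero {a b : ZMod 2} (ha : a ≠ 0) (hb : b ≠ 0) : a - b = 0 := by
  revert a b; decide

theorem mem_cyc_erase {d : E → V → ZMod 2} {X : Finset E} {e0 : E} {y : E → ZMod 2} :
    y ∈ cyc d (X.erase e0) ↔ y ∈ cyc d X ∧ y e0 = 0 := by
  constructor
  · rintro ⟨h1, h2⟩
    refine ⟨⟨fun e he => h1 e (fun h => he (mem_of_mem_erase h)), h2⟩, h1 e0 (by simp)⟩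
  · rintro ⟨⟨h1, h2⟩, h3⟩
    refine ⟨fun e he => ?_, h2⟩
    by_cases hee : e = e0
    · rw [hee]; exact h3
    · exact h1 e (fun h => he (mem_erase.2 ⟨hee, h⟩))

/-- elements not forced to be zero -/
noncomputable def actv (d : E → V → ZMod 2) (X : Finset E) : Finset E := by
  classical exact univ.filter (fun e => ∃ z ∈ cyc d X, z e ≠ 0)

noncomputable def sclass (d : E → V → ZMod 2) (X : Finset E) (e : E) : Finset E := by
  classical exact (actv d X).filter (fun e' => ∀ y ∈ cyc d X, y e' = y e)

theorem mem_actv {d : E → V → ZMod 2} {X : Finset E} {e : E} :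
    e ∈ actv d X ↔ ∃ z ∈ cyc d X, z e ≠ 0 := by
  classical simp [actv]

theorem mem_sclass {d : E → V → ZMod 2} {X : Finset E} {e e' : E} :
    e' ∈ sclass d X e ↔ e' ∈ actv d X ∧ ∀ y ∈ cyc d X, y e' = y e := by
  classical simp [sclass]

theorem actv_subset (d : E → V → ZMod 2) (X : Finset E) : actv d X ⊆ X := by
  intro e he
  obtain ⟨z, hz, hze⟩ := mem_actv.1 he
  by_contra h
  exact hze (hz.1 e h)

theorem wt_aux (d : E → V → ZMod 2) (X₀ : Finset E) (s : ℕ)
    (H : ∀ X ⊆ X₀, cyc d X ≠ ⊥ → ∃ z ∈ cyc d X, z ≠ 0 ∧ MeetsFew d X s z)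
    (w : E → ℝ) (hw : ∀ e, 0 ≤ w e) (n : ℕ) :
    ∀ X ⊆ X₀, X.card = n → ∃ 𝓑 : Finset (E → ZMod 2), IsBas (cyc d X) 𝓑 ∧
        ∑ z ∈ 𝓑, ∑ e, (if z e ≠ 0 then w e else 0) ≤ s * ∑ e ∈ actv d X, w e := by
  induction n using Nat.strong_induction_on with
  | _ n ih =>
    intro X hX hn
    by_cases hbot : cyc d X = ⊥
    · refine ⟨∅, ⟨?_, ?_⟩, ?_⟩
      · exact linearIndependent_empty_type
      · simp [hbot]
      · simp only [sum_empty]
        exact mul_nonneg (Nat.cast_nonneg _) (sum_nonneg (fun e _ => hw e))
    · obtain ⟨z, hz, hz0, K, hKs, hK⟩ := H X hX hbot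
      -- nonempty K'
      obtain ⟨e1, he1⟩ : ∃ e, z e ≠ 0 := by
        by_contra hcon
        push Not at hcon
        exact hz0 (funext hcon)
      set K' := K.filter (fun e => z e ≠ 0) with hK'
      have hcov : ∀ e, z e ≠ 0 → ∃ e' ∈ K', e ∈ sclass d X e' := by
        intro e he
        obtain ⟨e', he', hy⟩ := hK e he
        refine ⟨e', mem_filter.2 ⟨he', ?_⟩, mem_sclass.2 ⟨mem_actv.2 ⟨z, hz, he⟩, hy⟩⟩
        rw [← hy z hz]; exact he
      have hK'ne : K'.Nonempty := by
        obtain ⟨e', he', -⟩ := hcov e1 he1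
        exact ⟨e', he'⟩
      obtain ⟨e0, he0, hmax⟩ := exists_max_image K' (fun e => ∑ e' ∈ sclass d X e, w e') hK'ne
      have hze0 : z e0 ≠ 0 := (mem_filter.1 he0).2
      have he0X : e0 ∈ X := by
        by_contra h
        exact hze0 (hz.1 e0 h)
      have hwt : ∑ e, (if z e ≠ 0 then w e else 0) ≤ s * ∑ e' ∈ sclass d X e0, w e' := by
        calc ∑ e, (if z e ≠ 0 then w e else 0) = ∑ e ∈ univ.filter (fun e => z e ≠ 0), w e := by
              rw [sum_filter]
          _ ≤ ∑ e ∈ K'.biUnion (fun e' => sclass d X e'), w e := by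
              apply sum_le_sum_of_subset_of_nonneg
              · intro e he
                obtain ⟨e', he', hee⟩ := hcov e (mem_filter.1 he).2
                exact mem_biUnion.2 ⟨e', he', hee⟩
              · intro e _ _; exact hw e
          _ ≤ ∑ e' ∈ K', ∑ e ∈ sclass d X e', w e := by
              clear_value K'
              clear hK' hcov hK'ne hmax he0
              induction K' using Finset.induction_on with
              | empty => simp
              | insert a S ha ihS =>
                rw [biUnion_insert, sum_insert ha]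
                have := sum_union_inter (s₁ := sclass d X a) (s₂ := S.biUnion (fun e' => sclass d X e')) (f := w)
                have h2 : 0 ≤ ∑ e ∈ sclass d X a ∩ S.biUnion (fun e' => sclass d X e'), w e :=
                  sum_nonneg (fun e _ => hw e)
                linarith
          _ ≤ ∑ e' ∈ K', ∑ e ∈ sclass d X e0, w e := sum_le_sum hmax
          _ = K'.card * ∑ e ∈ sclass d X e0, w e := by rw [sum_const, nsmul_eq_mul]
          _ ≤ s * ∑ e ∈ sclass d X e0, w e := by
              apply mul_le_mul_of_nonneg_right _ (sum_nonneg (fun e _ => hw e))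
              exact_mod_cast (card_filter_le _ _).trans hKs
      obtain ⟨𝓑', ⟨hli, hsp⟩, hwB⟩ := ih (X.erase e0).card
        (by rw [← hn]; exact card_erase_lt_of_mem he0X) (X.erase e0)
        ((erase_subset _ _).trans hX) rfl
      have hzn : z ∉ Submodule.span (ZMod 2) (𝓑' : Set (E → ZMod 2)) := by
        rw [hsp, mem_cyc_erase]
        exact fun h => hze0 h.2
      have hznB : z ∉ 𝓑' := fun h => hzn (Submodule.subset_span h)
      refine ⟨insert z 𝓑', ⟨?_, ?_⟩, ?_⟩
      · have h1 : LinearIndepOn (ZMod 2) id (𝓑' : Set (E → ZMod 2)) := hli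
        have h2 : LinearIndepOn (ZMod 2) id (insert z (𝓑' : Set (E → ZMod 2))) := by
          apply LinearIndepOn.insert h1
          simpa using hzn
        rw [← coe_insert] at h2
        exact h2
      · rw [coe_insert, Submodule.span_insert, hsp]
        apply le_antisymm
        · apply sup_le
          · rw [Submodule.span_singleton_le_iff_mem]; exact hz
          · intro y hy; exact (mem_cyc_erase.1 hy).1
        · intro y hy
          by_cases hye : y e0 = 0
          · exact Submodule.mem_sup_right (mem_cyc_erase.2 ⟨hy, hye⟩)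
          · have h3 : y - z ∈ cyc d (X.erase e0) := by
              rw [mem_cyc_erase]
              exact ⟨(cyc d X).sub_mem hy hz, by
                rw [Pi.sub_apply]; exact zmod2_sub_eq_zero hye hze0⟩
            have h4 : y = z + (y - z) := by abel
            rw [h4]
            exact Submodule.add_mem_sup (Submodule.mem_span_singleton_self z) h3
      · rw [sum_insert hznB]
        have hdis : Disjoint (sclass d X e0) (actv d (X.erase e0)) := by
          rw [disjoint_left]
          intro e he he'
          obtain ⟨y, hy, hye⟩ := mem_actv.1 he'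
          have h5 := (mem_sclass.1 he).2 y (mem_cyc_erase.1 hy).1
          rw [(mem_cyc_erase.1 hy).2] at h5
          exact hye h5
        have hsub : sclass d X e0 ∪ actv d (X.erase e0) ⊆ actv d X := by
          apply union_subset
          · intro e he; exact (mem_sclass.1 he).1
          · intro e he
            obtain ⟨y, hy, hye⟩ := mem_actv.1 he
            exact mem_actv.2 ⟨y, (mem_cyc_erase.1 hy).1, hye⟩
        have h6 : ∑ e ∈ sclass d X e0, w e + ∑ e ∈ actv d (X.erase e0), w e ≤
            ∑ e ∈ actv d X, w e := by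
          rw [← sum_union hdis]
          exact sum_le_sum_of_subset_of_nonneg hsub (fun e _ _ => hw e)
        have hs0 : (0 : ℝ) ≤ s := Nat.cast_nonneg _
        have h7 := mul_le_mul_of_nonneg_left h6 hs0
        rw [mul_add] at h7
        linarith

theorem wt_thm : S_WT := by
  intro V E _ _ _ _ d X₀ s H w hw
  obtain ⟨𝓑, hB, hle⟩ := wt_aux d X₀ s H w hw X₀.card X₀ (Subset.refl _) rfl
  refine ⟨𝓑, hB, hle.trans ?_⟩
  apply mul_le_mul_of_nonneg_left _ (Nat.cast_nonneg _)
  exact sum_le_sum_of_subset_of_nonneg (actv_subset d X₀) (fun e _ _ => hw e)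

end BN
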